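import Mathlib
import Pool.Agent.Y488.TM.BM
import Pool.Agent.Y488.TM.FinB
import Pool.Agent.Y488.TM.Near

/-!
# The Brauer-Manin sets of almost all quadratic twists are near one rational branch point

Let `f k ∈ ℤ[x]` be irreducible over `ℚ`, pairwise non-associated, of even total degree, at least
four of them of odd degree and at least one of them linear, and let `F k` be the homogenisations.
Under a condition on the linear factors, for all squarefree `d`, `|d| ≤ X`, with at most
`C X (log X)^(-δ)` exceptions, every adelic point of the curve `C d : d y² = ∏ k, F k (x, w)` which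
is orthogonal to the classes `(F k, e)` (`deg F k` even) and `(F k * F l, e)` (`deg F k`, `deg F l`
odd) of the Brauer group of `C d`, `e` a nonzero integer, has at all places the type of one and the
same rational branch point `P i` and reduces to `P i` modulo all primes `p > z` dividing `d`, where
`z` depends on the `f k` only.  So the Brauer-Manin set is contained in a union of small
neighbourhoods of the rational branch points at the places dividing `d`.

The case without linear factors (empty Brauer-Manin set) is
`MP_308fa9_nt/BrauerManinMixedFactors.lean`.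
-/

set_option autoImplicit false

namespace Pool.Agent.Results.MP_ab3ecb_nt.TwistsNearBranchPoint

open Finset Polynomial Pool.Agent.W313.BMX

section K

variable {K : Type} [Fintype K] [DecidableEq K]

/-- the indices of the factors of odd degree -/
def Od (f : K → ℤ[X]) : Finset K := univ.filter (fun k => Odd (f k).natDegree)

/-- the indices of the linear factors -/
def Ln (f : K → ℤ[X]) : Finset K := univ.filter (fun k => (f k).natDegree = 1)

/-- the value of `F k` at the zero `(-b, a)` of the linear form `F i = a x + b w` -/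
noncomputable def val (f : K → ℤ[X]) (i k : K) : ℤ :=
  homog (f k) (-(f i).coeff 0) ((f i).coeff 1)

/-- the factors are irreducible over `ℚ`, pairwise non-associated, of even total degree, and at
least four of them have odd degree -/
def Factors (f : K → ℤ[X]) : Prop :=
  (∀ k, Irreducible ((f k).map (Int.castRingHom ℚ))) ∧
  (∀ k l, k ≠ l →
    ¬ Associated ((f k).map (Int.castRingHom ℚ)) ((f l).map (Int.castRingHom ℚ))) ∧
  Even (∑ k, (f k).natDegree) ∧ 4 ≤ (Od f).card

/-- the condition on the linear factors: for any two linear factors `i ≠ k` there is a product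
`F T`, `T ⊆ K \ {i, k}`, of even degree, whose values at the zeros of `F i`, `F k` are not in the
same square class; if there are exactly four factors of odd degree, and these are linear, then there
are two of them, `i` and `k`, and a product `F T` of factors of even degree with this property -/
def General (f : K → ℤ[X]) : Prop :=
  (∀ i ∈ Ln f, ∀ k ∈ Ln f, i ≠ k → ∃ T : Finset K, i ∉ T ∧ k ∉ T ∧ Even (T ∩ Od f).card ∧
    ¬ IsSquare (∏ l ∈ T, (val f i l * val f k l))) ∧
  ((Od f).card = 4 → Od f ⊆ Ln f → ∃ i ∈ Od f, ∃ k ∈ Od f, ∃ T : Finset K,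
    Disjoint T (Od f) ∧ ¬ IsSquare (∏ l ∈ T, (val f i l * val f k l)))

/-- The family of the values of `F k * F l` at the components of an adelic point. -/
noncomputable def values2 {f : K → ℤ[X]} {d : ℤ} (P : AdelicPoint f d) (k l : K) : Fam :=
  ⟨value P.re k * value P.re l, fun p => value (P.pa p) k * value (P.pa p) l⟩

/-- The adelic point is orthogonal to the classes `(F k, e)`, `deg F k` even, and `(F k * F l, e)`,
`deg F k`, `deg F l` odd: the number of the places at which the Hilbert symbol is not trivial is
even, so that the sum of the invariants is zero. -/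
def Orthogonal {f : K → ℤ[X]} {d : ℤ} (P : AdelicPoint f d) : Prop :=
  ∀ e : ℤ, e ≠ 0 → (∀ k, Even (f k).natDegree → Even (ram (values P k) e).ncard) ∧
    ∀ k l, k ≠ l → Odd (f k).natDegree → Odd (f l).natDegree → Even (ram (values2 P k l) e).ncard

/-- the adelic point has the type of the zero `P i` of the linear form `F i`: for every product
`F T` of even degree, `i ∉ T`, the values of `F T` at the point and at `P i` are in the same square
class at all places -/
def TypeOf {f : K → ℤ[X]} {d : ℤ} (P : AdelicPoint f d) (i : K) : Prop :=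
  ∀ T : Finset K, i ∉ T → Even (∑ k ∈ T, (f k).natDegree) →
    IsSquare (∏ k ∈ T, (value P.re k * (val f i k : ℝ))) ∧
    ∀ p : Nat.Primes, IsSquare (∏ k ∈ T, (value (P.pa p) k * (val f i k : ℚ_[(p : ℕ)])))

/-- The `p`-adic component of the adelic point reduces modulo `p` to the zero of the linear form
`F i`, for all primes `p > z` dividing `d`: the value of `F i` at the coordinates `(x, w)` is smaller
than the larger one of the coordinates. -/
def ReducesTo {f : K → ℤ[X]} {d : ℤ} (z : ℕ) (P : AdelicPoint f d) (i : K) : Prop :=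
  ∀ p : Nat.Primes, z < (p : ℕ) → ((p : ℕ) : ℤ) ∣ d →
    ‖homog (f i) (P.pa p).x (P.pa p).w‖ < max ‖(P.pa p).x‖ ‖(P.pa p).w‖

end K

theorem result (K : Type) [Fintype K] [DecidableEq K] (f : K → ℤ[X]) (hF : Factors f)
    (hG : General f) (_hL : (Ln f).Nonempty) :
    ∃ z : ℕ, ∃ δ : ℝ, 0 < δ ∧ ∃ C : ℝ, ∀ X : ℕ, 3 ≤ X →
      ({d : ℤ | d.natAbs ≤ X ∧ Squarefree d ∧ ¬ ∀ P : AdelicPoint f d, Orthogonal P →
        ∃ i, (f i).natDegree = 1 ∧ TypeOf P i ∧ ReducesTo z P i}.ncard : ℝ) ≤
        C * X * (Real.log X) ^ (-δ) := by
  have hH : Pool.Agent.Y488.TM.Hyp f := ⟨hF.1, hF.2.1, hF.2.2.1, hF.2.2.2, hG.1, hG.2⟩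
  obtain ⟨z, hz⟩ := Pool.Agent.Y488.TM.near f hH
  obtain ⟨δ, hδ, C, hC⟩ := Pool.Agent.Y488.TM.bm_main Pool.Agent.Y488.TM.finb f hH
  refine ⟨z, δ, hδ, C, fun X hX => le_trans ?_ (hC X hX)⟩
  refine Nat.cast_le.2 (Set.ncard_le_ncard ?_ (Pool.Agent.TH213.SP.fin_le X _))
  rintro d ⟨h1, h2, h3⟩
  push Not at h3
  obtain ⟨P, hP, hno⟩ := h3
  refine ⟨h1, h2, P, hP, fun i hi hT => hno i hi hT fun p hzp hpd => ?_⟩
  have : Fact (p : ℕ).Prime := ⟨p.2⟩
  exact hz d h2 (p : ℕ) hzp hpd (P.pa p) i hi (fun T hiT hev => (hT T hiT hev).2 p)

end Pool.Agent.Results.MP_ab3ecb_nt.TwistsNearBranchPoint
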